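import Pool.Agent.H.MP_f91556_lc.B

namespace Pool.Agent.Results.MP_f91556_lc.Quad

open Pool.Agent.H.MP_d958de_lc Pool.Agent.H.MP_f91556_lc Filter Finset Asymptotics

theorem result (Q : Type) (M : (d m : ℕ) → Sub d m → Sub d m → Mach Q)
    (t : (d m : ℕ) → Sub d m → Sub d m → (Fin m → ℂ) → ℕ)
    (ht : ∀ d m R C v, (M d m R C).Out v (t d m R C v) (prod R C v)) :
    (∀ m : ℕ, 2 ≤ m → ∃ d : ℕ, m ≤ d ∧ ∃ R C v, m ^ 2 ≤ 6 * t d m R C v + 1) ∧
    ¬ ∃ T : ℕ → ℝ, (T =o[atTop] fun m => (m : ℝ) ^ 2) ∧ ∀ m d : ℕ, m ≤ d → ∀ R C v, (t d m R C v : ℝ) ≤ T m := by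
  have key : ∀ m : ℕ, 2 ≤ m → ∃ d : ℕ, m ≤ d ∧ ∃ R C v, m ^ 2 ≤ 6 * t d m R C v + 1 := fun m h2 => by
    have m2 : 4 ≤ m * m := by nlinarith
    obtain ⟨d, hd, C, h⟩ := core m ((m * m - 2) / 6) (by omega) (by omega)
    obtain ⟨v, hv⟩ := h (fun R => M d m R C) (fun R => t d m R C) fun R => ht d m R C
    by_contra! q
    have : (univ.filter fun R => t d m R C v ≤ (m * m - 2) / 6) = univ := filter_true_of_mem fun R _ => by
      have := q d hd R C v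
      rw [sq] at this
      omega
    rw [this, card_univ] at hv
    omega
  refine ⟨key, fun ⟨T, hT, h⟩ => ?_⟩
  obtain ⟨m, h1, h2⟩ := ((hT.bound (c := 1 / 12) (by norm_num)).and (eventually_ge_atTop 2)).exists
  obtain ⟨d, hd, R, C, v, h3⟩ := key m h2
  have a := h m d hd R C v
  have b : (m : ℝ) ^ 2 ≤ 6 * t d m R C v + 1 := by exact_mod_cast h3
  have c : (2 : ℝ) ≤ m := by exact_mod_cast h2
  simp only [Real.norm_eq_abs, abs_pow, sq_abs] at h1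
  nlinarith [le_abs_self (T m)]

end Pool.Agent.Results.MP_f91556_lc.Quad
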